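import Pool.Agent.Helper32.AG.Goals

/-! AG, packet N4. -/

set_option autoImplicit false

namespace Pool.Agent.Helper90.AG

open Pool.Agent.Helper32.AG

theorem cube_le : ∀ p : ℕ, 3 ≤ p → p ^ 3 ≤ 3 ^ p := by
  intro p hp
  induction p, hp using Nat.le_induction with
  | base => norm_num
  | succ n hn ih =>
    have h1 : (n + 1) ^ 3 ≤ 3 * n ^ 3 := by
      have : 3 * n ^ 2 + 3 * n + 1 ≤ 2 * n ^ 3 := by nlinarith [sq_nonneg (n : ℤ), Nat.mul_le_mul hn (Nat.mul_le_mul hn hn)]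
      nlinarith
    calc (n + 1) ^ 3 ≤ 3 * n ^ 3 := h1
      _ ≤ 3 * 3 ^ n := by omega
      _ = 3 ^ (n + 1) := by ring

theorem e_two : ∀ a : ℕ, 1 ≤ a → 8 * a ^ 3 ≤ 9 ^ a := by
  intro a ha
  induction a, ha using Nat.le_induction with
  | base => norm_num
  | succ n hn ih =>
    have h1 : (n + 1) ^ 3 ≤ 9 * n ^ 3 := by
      have h2 : n + 1 ≤ 2 * n := by omega
      calc (n + 1) ^ 3 ≤ (2 * n) ^ 3 := Nat.pow_le_pow_left h2 3
        _ = 8 * n ^ 3 := by ring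
        _ ≤ 9 * n ^ 3 := Nat.mul_le_mul_right _ (by norm_num)
    calc 8 * (n + 1) ^ 3 ≤ 8 * (9 * n ^ 3) := Nat.mul_le_mul_left _ h1
      _ = 9 * (8 * n ^ 3) := by ring
      _ ≤ 9 * 9 ^ n := Nat.mul_le_mul_left _ ih
      _ = 9 ^ (n + 1) := by ring

theorem e_gen (a : ℕ) (ha : 1 ≤ a) : ∀ b : ℕ, 2 ≤ b → 4 * a ^ 3 * b ≤ 9 ^ (a * (b - 1)) := by
  intro b hb
  induction b, hb using Nat.le_induction with
  | base => have := e_two a ha; simpa [mul_comm, mul_left_comm, mul_assoc] using (by linarith : 4 * a ^ 3 * 2 ≤ 9 ^ a)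
  | succ n hn ih =>
    have e : a * (n + 1 - 1) = a * (n - 1) + a := by
      obtain ⟨m, rfl⟩ : ∃ m, n = m + 1 := ⟨n - 1, by omega⟩
      simp only [Nat.add_sub_cancel]; ring
    rw [e, pow_add]
    have h9 : 2 ≤ 9 ^ a := by
      calc 2 ≤ 9 ^ 1 := by norm_num
        _ ≤ 9 ^ a := Nat.pow_le_pow_right (by norm_num) ha
    calc 4 * a ^ 3 * (n + 1) ≤ 4 * a ^ 3 * (n * 2) := Nat.mul_le_mul_left _ (by omega)
      _ = (4 * a ^ 3 * n) * 2 := by ring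
      _ ≤ 9 ^ (a * (n - 1)) * 9 ^ a := Nat.mul_le_mul ih h9

theorem n4 : N4Stmt := by
  intro p a b r hp hp2 ha hb h
  have hp3 : 3 ≤ p := by
    have := hp.two_le
    omega
  -- it is enough to have `2 a b p ≤ 3 r`
  suffices hr : 2 * a * b * p ≤ 3 * r by
    have h1 : (p ^ (2 * a * b)) ^ 3 ≤ (3 ^ r) ^ 3 := by
      calc (p ^ (2 * a * b)) ^ 3 = (p ^ 3) ^ (2 * a * b) := by rw [← pow_mul, ← pow_mul, mul_comm]
        _ ≤ (3 ^ p) ^ (2 * a * b) := Nat.pow_le_pow_left (cube_le p hp3) _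
        _ = 3 ^ (2 * a * b * p) := by rw [← pow_mul, mul_comm]
        _ ≤ 3 ^ (3 * r) := Nat.pow_le_pow_right (by norm_num) hr
        _ = (3 ^ r) ^ 3 := by rw [← pow_mul, mul_comm]
    exact (Nat.pow_le_pow_iff_left (by norm_num)).1 h1
  set Q : ℕ := p ^ a with hQ
  have hQ3 : 3 ≤ Q := by
    calc 3 ≤ p := hp3
      _ = p ^ 1 := (pow_one p).symm
      _ ≤ p ^ a := Nat.pow_le_pow_right (by omega) ha
  obtain ⟨c, rfl⟩ : ∃ c, b = c + 1 := ⟨b - 1, by omega⟩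
  have hc : 1 ≤ c := by omega
  have hE := e_gen a ha (c + 1) hb
  rw [Nat.add_sub_cancel] at hE
  -- `4 a³ b p ≤ 3 Q ^ (2 c)`
  have hF : 4 * a ^ 3 * (c + 1) * p ≤ 3 * Q ^ (2 * c) := by
    have h1 : 9 ^ (a * c) * p ≤ 3 * Q ^ (2 * c) := by
      have e1 : Q ^ (2 * c) = p ^ (2 * (a * c)) := by rw [hQ, ← pow_mul]; congr 1; ring
      obtain ⟨m, hm⟩ : ∃ m, 2 * (a * c) = m + 1 :=
        ⟨2 * (a * c) - 1, by have := Nat.mul_pos ha hc; omega⟩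
      have e2 : (9 : ℕ) ^ (a * c) = 3 ^ (m + 1) := by
        rw [← hm, pow_mul 3 2 (a * c)]; norm_num
      rw [e1, e2, hm, pow_succ, pow_succ]
      calc 3 ^ m * 3 * p ≤ p ^ m * 3 * p :=
            Nat.mul_le_mul_right _ (Nat.mul_le_mul_right _ (Nat.pow_le_pow_left hp3 m))
        _ = 3 * (p ^ m * p) := by ring
    exact (Nat.mul_le_mul_right _ hE).trans h1
  have hpow : p ^ (2 * a * (c + 1)) = Q ^ (2 * c) * Q ^ 2 := by
    rw [hQ, ← pow_mul, ← pow_mul, ← pow_add]; congr 1; ring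
  rw [hpow] at h
  obtain ⟨t, ht⟩ : ∃ t, Q = t + 1 := ⟨Q - 1, by omega⟩
  have ht2 : 2 ≤ t := by omega
  rw [ht, Nat.add_sub_cancel] at h
  rw [ht] at hF
  set Y : ℕ := (t + 1) ^ (2 * c) with hY
  have hY1 : 1 ≤ Y := Nat.one_le_pow _ _ (by omega)
  -- `Y t² ≤ r (2 a² t²)`
  have h3 : Y * t ^ 2 ≤ r * (2 * a ^ 2 * t ^ 2) := by nlinarith
  have ht0 : 0 < t ^ 2 := by positivity
  have h4 : Y ≤ r * (2 * a ^ 2) := by
    have : Y * t ^ 2 ≤ (r * (2 * a ^ 2)) * t ^ 2 := by linarith [h3, (by ring : r * (2 * a ^ 2 * t ^ 2) = (r * (2 * a ^ 2)) * t ^ 2)]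
    exact Nat.le_of_mul_le_mul_right this ht0
  have ha2 : 0 < 2 * a ^ 2 := by positivity
  have h5 : (2 * a * (c + 1) * p) * (2 * a ^ 2) ≤ (3 * r) * (2 * a ^ 2) := by
    calc (2 * a * (c + 1) * p) * (2 * a ^ 2) = 4 * a ^ 3 * (c + 1) * p := by ring
      _ ≤ 3 * Y := hF
      _ ≤ 3 * (r * (2 * a ^ 2)) := Nat.mul_le_mul_left _ h4
      _ = (3 * r) * (2 * a ^ 2) := by ring
  exact Nat.le_of_mul_le_mul_right h5 ha2

end Pool.Agent.Helper90.AG
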